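import Pool.Agent.TH869.SQ.Ge

set_option autoImplicit false

/-!
# All boxes at once
-/

namespace Pool.Agent.TH869.SQ

open Finset Pool.Agent.TH869.EVF

open Classical in
/-- the indicator function of the product of the sets `I i` -/
noncomputable def ind {m : ℕ} (I : Fin m → Set ℝ) (v : Fin m → ℝ) : ℝ :=
  if ∀ i, v i ∈ I i then 1 else 0

/-- the mean of `f` over the residues modulo `q` -/
noncomputable def mean (q : ℕ) (f : ℕ → ℝ) : ℝ := (∑ t ∈ range q, f t) / q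

theorem ind_nonneg {m : ℕ} (I : Fin m → Set ℝ) (v : Fin m → ℝ) : 0 ≤ ind I v := by
  unfold ind; split_ifs <;> norm_num

theorem ind_le {m : ℕ} (I : Fin m → Set ℝ) (v : Fin m → ℝ) : ind I v ≤ 1 := by
  unfold ind; split_ifs <;> norm_num

theorem ind_congr {m : ℕ} {I J : Fin m → Set ℝ} {v : Fin m → ℝ}
    (h : (∀ i, v i ∈ I i) ↔ ∀ i, v i ∈ J i) : ind I v = ind J v := by
  unfold ind
  by_cases hI : ∀ i, v i ∈ I i
  · rw [if_pos hI, if_pos (h.mp hI)]
  · rw [if_neg hI, if_neg (fun hJ => hI (h.mpr hJ))]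

theorem mean_mem {q : ℕ} {f : ℕ → ℝ} (h0 : ∀ t, 0 ≤ f t) (h1 : ∀ t, f t ≤ 1) :
    0 ≤ mean q f ∧ mean q f ≤ 1 := by
  unfold mean
  refine ⟨div_nonneg (sum_nonneg fun t _ => h0 t) (Nat.cast_nonneg _), ?_⟩
  apply div_le_one_of_le₀ _ (Nat.cast_nonneg _)
  calc ∑ t ∈ range q, f t ≤ ∑ t ∈ range q, (1 : ℝ) := sum_le_sum fun t _ => h1 t
    _ = q := by simp

theorem sum_sub_mean {q : ℕ} (hq : 0 < q) (f : ℕ → ℝ) :
    ∑ t ∈ range q, (f t - mean q f) = 0 := by
  have hqr : (q : ℝ) ≠ 0 := by exact_mod_cast hq.ne'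
  rw [sum_sub_distrib, sum_const, card_range, nsmul_eq_mul, mean]
  field_simp
  ring

theorem per_mod {X : Type*} {f : ℕ → X} {q : ℕ} (h : ∀ n, f (n + q) = f n) (n : ℕ) :
    f (n % q) = f n := by
  have h1 : ∀ c r, f (r + c * q) = f r := by
    intro c
    induction c with
    | zero => intro r; simp
    | succ c ih => intro r; rw [add_mul, one_mul, ← add_assoc, h, ih]
  conv_rhs => rw [← Nat.mod_add_div n q, mul_comm, h1]

/-- **boxes** -/
theorem boxes (s B D m : ℕ) (hs : 1 ≤ s) (δ : ℝ) (hδ : 0 < δ) :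
    ∃ κ C : ℝ, 0 < κ ∧ κ ≤ 1 ∧ 1 ≤ C ∧ ∀ (q : ℕ → ℕ),
      (∀ k, 0 < q k ∧ q k ≤ D * (k + 1) ^ B) →
      (∀ j k, j + s ≤ k → Nat.Coprime (q j) (q k)) → ∀ x : ℕ → ℕ → Fin m → ℝ,
      (∀ k n, x k (n + q k) = x k n) →
      ∀ N : ℕ, 1 ≤ N → ∃ E : Finset ℕ, (E.card : ℝ) ≤ C * (N : ℝ) ^ (1 - κ) ∧
        ∀ n : ℕ, n ≤ N → n ∉ E → ∀ K : ℕ, (K : ℝ) ≤ (N : ℝ) ^ κ →
          ∀ I : Fin m → Set ℝ, (∀ i, (I i).OrdConnected) →
          |∑ k ∈ range K, (ind I (x k n) - mean (q k) (fun t => ind I (x k t)))| ≤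
            C * lam δ N K := by
  classical
  obtain ⟨κ1, C1, hκ10, hκ11, hC1, H⟩ := good s B D hs δ hδ
  set w : ℝ := 2 * m * (B + 1) with hw
  have hw0 : 0 ≤ w := by positivity
  set κ : ℝ := κ1 / (2 * (w + 1)) with hκ
  have hκ0 : 0 < κ := by positivity
  have hκ2 : κ * (2 * (w + 1)) = κ1 := by rw [hκ]; field_simp
  have hκw : κ * w ≤ κ1 / 2 := by nlinarith
  have hκh : κ ≤ κ1 / 2 := by nlinarith
  have hD1 : (1 : ℝ) ≤ ((D : ℝ) + 1) ^ (2 * m) := one_le_pow₀ (by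
    have : (0 : ℝ) ≤ D := Nat.cast_nonneg D
    linarith)
  refine ⟨κ, ((D : ℝ) + 1) ^ (2 * m) * C1, hκ0, by linarith,
    one_le_mul_of_one_le_of_one_le hD1 hC1, ?_⟩
  intro q hq hcop x hx N hN
  have hNr1 : (1 : ℝ) ≤ N := by exact_mod_cast hN
  have hN0 : (0 : ℝ) < N := by linarith
  set Y := ⌊(N : ℝ) ^ κ⌋₊ with hY
  have hYr : (Y : ℝ) ≤ (N : ℝ) ^ κ := Nat.floor_le (Real.rpow_nonneg hN0.le _)
  set Θ : Fin m → Finset ℝ := fun i =>
    (range Y).biUnion (fun k => (range (q k)).image (fun t => x k t i)) with hΘ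
  have hΘc : ∀ i, ((Θ i).card : ℝ) ≤ ((D : ℝ) + 1) * (N : ℝ) ^ (κ * (B + 1)) := by
    intro i
    have h1 : (Θ i).card ≤ ∑ k ∈ range Y, D * Y ^ B := by
      refine card_biUnion_le.trans (sum_le_sum fun k hk => ?_)
      refine card_image_le.trans ?_
      rw [card_range]
      refine (hq k).2.trans (Nat.mul_le_mul_left D (Nat.pow_le_pow_left ?_ B))
      exact mem_range.mp hk
    rw [sum_const, card_range, smul_eq_mul] at h1
    have h2 : ((Θ i).card : ℝ) ≤ Y * (D * (Y : ℝ) ^ B) := by exact_mod_cast h1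
    have h3 : (Y : ℝ) ^ (B + 1) ≤ (N : ℝ) ^ (κ * (B + 1)) := by
      calc (Y : ℝ) ^ (B + 1) ≤ ((N : ℝ) ^ κ) ^ (B + 1) := pow_le_pow_left₀ (by positivity) hYr _
        _ = _ := by
          rw [← Real.rpow_natCast, ← Real.rpow_mul hN0.le]
          push_cast
          rfl
    calc ((Θ i).card : ℝ) ≤ Y * (D * (Y : ℝ) ^ B) := h2
      _ = D * (Y : ℝ) ^ (B + 1) := by rw [pow_succ]; ring
      _ ≤ ((D : ℝ) + 1) * (N : ℝ) ^ (κ * (B + 1)) := by
          have : (D : ℝ) ≤ D + 1 := by linarith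
          gcongr
  set J : (Fin m → ℝ) → (Fin m → ℝ) → Fin m → Set ℝ := fun a b i => Set.Icc (a i) (b i) with hJ
  have hEx : ∀ a b : Fin m → ℝ, ∃ E : Finset ℕ, (E.card : ℝ) ≤ C1 * (N : ℝ) ^ (1 - κ1) ∧
      ∀ n : ℕ, n ≤ N → n ∉ E → ∀ K : ℕ, (K : ℝ) ≤ (N : ℝ) ^ κ1 →
        |∑ k ∈ range K, (ind (J a b) (x k n) - mean (q k) (fun t => ind (J a b) (x k t)))| ≤
          C1 * lam δ N K := by
    intro a b
    refine H q hq hcop
      (fun k n => ind (J a b) (x k n) - mean (q k) (fun t => ind (J a b) (x k t))) ?_ ?_ ?_ N hN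
    · intro k n
      show ind (J a b) (x k (n + q k)) - _ = ind (J a b) (x k n) - _
      rw [hx k n]
    · intro k n
      have h1 := ind_nonneg (J a b) (x k n)
      have h2 := ind_le (J a b) (x k n)
      obtain ⟨h3, h4⟩ := mean_mem (q := q k) (f := fun t => ind (J a b) (x k t))
        (fun t => ind_nonneg _ _) (fun t => ind_le _ _)
      rw [abs_le]
      constructor <;> linarith
    · intro k
      exact sum_sub_mean (hq k).1 _
  choose Ex hEx1 hEx2 using hEx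
  refine ⟨(Fintype.piFinset Θ).biUnion (fun a => (Fintype.piFinset Θ).biUnion (fun b => Ex a b)),
    ?_, ?_⟩
  · have hpi : ((Fintype.piFinset Θ).card : ℝ) ≤ (((D : ℝ) + 1) * (N : ℝ) ^ (κ * (B + 1))) ^ m := by
      rw [Fintype.card_piFinset]
      push_cast
      calc ∏ i, ((Θ i).card : ℝ) ≤ ∏ _i : Fin m, (((D : ℝ) + 1) * (N : ℝ) ^ (κ * (B + 1))) :=
            prod_le_prod (fun i _ => Nat.cast_nonneg _) fun i _ => hΘc i
        _ = _ := by rw [prod_const, card_univ, Fintype.card_fin]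
    set R : ℝ := (((D : ℝ) + 1) * (N : ℝ) ^ (κ * (B + 1))) ^ m with hR
    have hR0 : 0 ≤ R := by positivity
    have hNp : 0 ≤ (N : ℝ) ^ (1 - κ1) := Real.rpow_nonneg hN0.le _
    have h1 : (((Fintype.piFinset Θ).biUnion
        (fun a => (Fintype.piFinset Θ).biUnion (fun b => Ex a b))).card : ℝ) ≤
        ∑ a ∈ Fintype.piFinset Θ, ∑ b ∈ Fintype.piFinset Θ, ((Ex a b).card : ℝ) := by
      have h3 : ((Fintype.piFinset Θ).biUnion
          (fun a => (Fintype.piFinset Θ).biUnion (fun b => Ex a b))).card ≤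
          ∑ a ∈ Fintype.piFinset Θ, ∑ b ∈ Fintype.piFinset Θ, (Ex a b).card :=
        card_biUnion_le.trans (sum_le_sum fun z _ => card_biUnion_le)
      exact_mod_cast h3
    have hRR : R * R = ((D : ℝ) + 1) ^ (2 * m) * (N : ℝ) ^ (κ * w) := by
      have e1 : ((N : ℝ) ^ (κ * (B + 1))) ^ (2 * m) = (N : ℝ) ^ (κ * w) := by
        rw [← Real.rpow_natCast, ← Real.rpow_mul hN0.le]
        congr 1
        rw [hw]; push_cast; ring
      rw [hR, ← pow_add, ← two_mul, mul_pow, e1]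
    calc _ ≤ ∑ a ∈ Fintype.piFinset Θ, ∑ b ∈ Fintype.piFinset Θ, ((Ex a b).card : ℝ) := h1
      _ ≤ ∑ a ∈ Fintype.piFinset Θ, ∑ b ∈ Fintype.piFinset Θ, C1 * (N : ℝ) ^ (1 - κ1) :=
          sum_le_sum fun a _ => sum_le_sum fun b _ => hEx1 a b
      _ = (Fintype.piFinset Θ).card * ((Fintype.piFinset Θ).card * (C1 * (N : ℝ) ^ (1 - κ1))) := by
          rw [sum_const, sum_const, nsmul_eq_mul, nsmul_eq_mul]
      _ ≤ R * (R * (C1 * (N : ℝ) ^ (1 - κ1))) := by gcongr
      _ = ((D : ℝ) + 1) ^ (2 * m) * C1 * ((N : ℝ) ^ (κ * w) * (N : ℝ) ^ (1 - κ1)) := by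
          rw [← mul_assoc, hRR]; ring
      _ ≤ ((D : ℝ) + 1) ^ (2 * m) * C1 * (N : ℝ) ^ (1 - κ) := by
          rw [← Real.rpow_add hN0]
          have h4 : (N : ℝ) ^ (κ * w + (1 - κ1)) ≤ (N : ℝ) ^ (1 - κ) :=
            Real.rpow_le_rpow_of_exponent_le hNr1 (by linarith)
          gcongr
  · intro n hn hnE K hK I hI
    have hKY : K ≤ Y := Nat.le_floor hK
    have hC : C1 ≤ ((D : ℝ) + 1) ^ (2 * m) * C1 := by nlinarith
    have hlam := lam_nonneg δ N K
    have hres : ∀ k n, x k n = x k (n % q k) := fun k n => (per_mod (hx k) n).symm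
    by_cases hne : ∃ i, ∀ θ ∈ Θ i, θ ∉ I i
    · obtain ⟨i, hi⟩ := hne
      have h0 : ∀ k, k < K → ∀ t, ind I (x k t) = 0 := by
        intro k hk t
        unfold ind
        rw [if_neg]
        intro hall
        have hmem : x k (t % q k) i ∈ Θ i := by
          rw [hΘ]
          simp only [mem_biUnion, mem_image, mem_range]
          exact ⟨k, by omega, t % q k, Nat.mod_lt _ (hq k).1, rfl⟩
        apply hi _ hmem
        rw [← hres]
        exact hall i
      have h1 : ∑ k ∈ range K, (ind I (x k n) - mean (q k) (fun t => ind I (x k t))) = 0 := by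
        refine sum_eq_zero fun k hk => ?_
        rw [mem_range] at hk
        rw [h0 k hk n, mean]
        simp [h0 k hk]
      rw [h1, abs_zero]
      positivity
    · push Not at hne
      have hnon : ∀ i, ((Θ i).filter (fun θ => θ ∈ I i)).Nonempty := by
        intro i
        obtain ⟨θ, h1, h2⟩ := hne i
        exact ⟨θ, mem_filter.mpr ⟨h1, h2⟩⟩
      set a : Fin m → ℝ := fun i => ((Θ i).filter (fun θ => θ ∈ I i)).min' (hnon i) with ha
      set b : Fin m → ℝ := fun i => ((Θ i).filter (fun θ => θ ∈ I i)).max' (hnon i) with hb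
      have haΘ : ∀ i, a i ∈ Θ i ∧ a i ∈ I i := fun i =>
        mem_filter.mp (min'_mem ((Θ i).filter (fun θ => θ ∈ I i)) (hnon i))
      have hbΘ : ∀ i, b i ∈ Θ i ∧ b i ∈ I i := fun i =>
        mem_filter.mp (max'_mem ((Θ i).filter (fun θ => θ ∈ I i)) (hnon i))
      have hiff : ∀ i, ∀ θ ∈ Θ i, (θ ∈ I i ↔ θ ∈ J a b i) := by
        intro i θ hθ
        rw [hJ, Set.mem_Icc]
        constructor
        · intro h
          have hm : θ ∈ (Θ i).filter (fun θ => θ ∈ I i) := mem_filter.mpr ⟨hθ, h⟩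
          exact ⟨min'_le _ _ hm, le_max' _ _ hm⟩
        · intro h
          exact (hI i).out (haΘ i).2 (hbΘ i).2 h
      have heq : ∀ k, k < K → ∀ t, ind I (x k t) = ind (J a b) (x k t) := by
        intro k hk t
        apply ind_congr
        rw [hres k t]
        refine forall_congr' fun i => hiff i _ ?_
        rw [hΘ]
        simp only [mem_biUnion, mem_image, mem_range]
        exact ⟨k, by omega, t % q k, Nat.mod_lt _ (hq k).1, rfl⟩
      have hnab : n ∉ Ex a b := by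
        intro h
        apply hnE
        rw [mem_biUnion]
        refine ⟨a, Fintype.mem_piFinset.mpr fun i => (haΘ i).1, ?_⟩
        rw [mem_biUnion]
        exact ⟨b, Fintype.mem_piFinset.mpr fun i => (hbΘ i).1, h⟩
      have hKκ1 : (K : ℝ) ≤ (N : ℝ) ^ κ1 :=
        hK.trans (Real.rpow_le_rpow_of_exponent_le hNr1 (by linarith))
      have h1 := hEx2 a b n hn hnab K hKκ1
      have h2 : ∑ k ∈ range K, (ind I (x k n) - mean (q k) (fun t => ind I (x k t))) =
          ∑ k ∈ range K, (ind (J a b) (x k n) - mean (q k) (fun t => ind (J a b) (x k t))) := by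
        refine sum_congr rfl fun k hk => ?_
        rw [mem_range] at hk
        rw [heq k hk n]
        congr 2
        funext t
        exact heq k hk t
      rw [h2]
      calc _ ≤ C1 * lam δ N K := h1
        _ ≤ _ := mul_le_mul_of_nonneg_right hC hlam

end Pool.Agent.TH869.SQ
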