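import Pool.Agent.TH869.SQ.Bx
import Pool.Agent.TH862.PrimeBd

set_option autoImplicit false

/-!
# Functions at consecutive primes
-/

namespace Pool.Agent.TH869.SQ

open Finset Pool.Agent.TH869.EVF

/-- the primes, `pr 0 = 2` -/
noncomputable def pr (k : ℕ) : ℕ := Nat.nth Nat.Prime k

theorem pr_prime (k : ℕ) : (pr k).Prime := Nat.prime_nth_prime k

theorem pr_inj {k l : ℕ} (h : pr k = pr l) : k = l :=
  Nat.nth_injective Nat.infinite_setOfPred_prime h

open Classical in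
/-- the indicator function of `S` -/
noncomputable def ind1 (S : Set ℝ) (v : ℝ) : ℝ := if v ∈ S then 1 else 0

theorem ind_eq_prod {m : ℕ} (I : Fin m → Set ℝ) (v : Fin m → ℝ) :
    ind I v = ∏ i, ind1 (I i) (v i) := by
  classical
  unfold ind ind1
  by_cases h : ∀ i, v i ∈ I i
  · rw [if_pos h, prod_eq_one]
    intro i _
    rw [if_pos (h i)]
  · rw [if_neg h]
    push Not at h
    obtain ⟨i, hi⟩ := h
    rw [prod_eq_zero (mem_univ i)]
    rw [if_neg hi]

/-- the product of `s` consecutive primes -/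
noncomputable def qs (s k : ℕ) : ℕ := ∏ i : Fin s, pr (k + i)

theorem qs_le (s : ℕ) (hs : 1 ≤ s) (k : ℕ) :
    0 < qs s k ∧ qs s k ≤ (4 * s ^ 2) ^ s * (k + 1) ^ (2 * s) := by
  refine ⟨prod_pos fun i _ => (pr_prime _).pos, ?_⟩
  have h1 : ∀ i : Fin s, pr (k + i) ≤ 4 * s ^ 2 * (k + 1) ^ 2 := by
    intro i
    refine (Pool.Agent.TH862.EA.nth_prime_le (k + i)).trans ?_
    have h2 : k + (i : ℕ) + 1 ≤ s * (k + 1) := by
      have := i.isLt
      nlinarith
    calc 4 * (k + (i : ℕ) + 1) ^ 2 ≤ 4 * (s * (k + 1)) ^ 2 :=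
          Nat.mul_le_mul_left 4 (Nat.pow_le_pow_left h2 2)
      _ = 4 * s ^ 2 * (k + 1) ^ 2 := by ring
  calc qs s k ≤ ∏ _i : Fin s, (4 * s ^ 2 * (k + 1) ^ 2) := prod_le_prod' fun i _ => h1 i
    _ = (4 * s ^ 2 * (k + 1) ^ 2) ^ s := by rw [prod_const, card_univ, Fintype.card_fin]
    _ = _ := by rw [mul_pow, ← pow_mul]

theorem qs_coprime (s j k : ℕ) (h : j + s ≤ k) : Nat.Coprime (qs s j) (qs s k) := by
  apply Nat.Coprime.prod_left
  intro i _
  apply Nat.Coprime.prod_right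
  intro l _
  apply (Nat.coprime_primes (pr_prime _) (pr_prime _)).mpr
  intro he
  have := pr_inj he
  have := i.isLt
  omega

theorem mean_prod (s k : ℕ) (x : ℕ → ℕ → ℝ) (hx : ∀ p n, x p (n + p) = x p n)
    (I : Fin s → Set ℝ) :
    mean (qs s k) (fun t => ind I (fun i => x (pr (k + i)) t)) =
      ∏ i : Fin s, mean (pr (k + i)) (fun t => ind1 (I i) (x (pr (k + i)) t)) := by
  classical
  have h := sum_prod_per (fun i : Fin s => pr (k + i)) (fun i t => ind1 (I i) (x (pr (k + i)) t))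
    univ (fun i _ => (pr_prime _).pos) (by
      intro i _ j _ hij
      apply (Nat.coprime_primes (pr_prime _) (pr_prime _)).mpr
      intro he
      apply hij
      have := pr_inj he
      ext
      omega) (by
      intro i _ n
      simp only
      rw [hx])
  unfold mean
  rw [prod_div_distrib, ← h.2]
  simp only [ind_eq_prod, qs]
  push_cast
  rfl

/-- **boxes at consecutive primes** -/
theorem consecutive (s : ℕ) (hs : 1 ≤ s) (δ : ℝ) (hδ : 0 < δ) :
    ∃ κ C : ℝ, 0 < κ ∧ κ ≤ 1 ∧ 1 ≤ C ∧ ∀ x : ℕ → ℕ → ℝ, (∀ p n, x p (n + p) = x p n) →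
      ∀ N : ℕ, 1 ≤ N → ∃ E : Finset ℕ, (E.card : ℝ) ≤ C * (N : ℝ) ^ (1 - κ) ∧
        ∀ n : ℕ, n ≤ N → n ∉ E → ∀ K : ℕ, (K : ℝ) ≤ (N : ℝ) ^ κ →
          ∀ I : Fin s → Set ℝ, (∀ i, (I i).OrdConnected) →
          |∑ k ∈ range K, (ind I (fun i => x (pr (k + i)) n) -
            ∏ i : Fin s, mean (pr (k + i)) (fun t => ind1 (I i) (x (pr (k + i)) t)))| ≤
            C * lam δ N K := by
  obtain ⟨κ, C, h1, h2, h3, H⟩ := boxes s (2 * s) ((4 * s ^ 2) ^ s) s hs δ hδ
  refine ⟨κ, C, h1, h2, h3, ?_⟩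
  intro x hx N hN
  obtain ⟨E, hE1, hE2⟩ := H (qs s) (qs_le s hs) (qs_coprime s)
    (fun k n i => x (pr (k + i)) n) (by
      intro k n
      funext i
      have hd : pr (k + i) ∣ qs s k := dvd_prod_of_mem (fun i : Fin s => pr (k + i)) (mem_univ i)
      obtain ⟨c, hc⟩ := hd
      have h4 := per_mod (hx (pr (k + i))) (n + qs s k)
      have h5 := per_mod (hx (pr (k + i))) n
      rw [← h4, ← h5, hc, Nat.add_mul_mod_self_left]) N hN
  refine ⟨E, hE1, ?_⟩
  intro n hn hnE K hK I hI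
  have h := hE2 n hn hnE K hK I hI
  have e : ∑ k ∈ range K, (ind I (fun i : Fin s => x (pr (k + i)) n) -
      ∏ i : Fin s, mean (pr (k + i)) (fun t => ind1 (I i) (x (pr (k + i)) t))) =
      ∑ k ∈ range K, (ind I (fun i : Fin s => x (pr (k + i)) n) -
        mean (qs s k) (fun t => ind I (fun i : Fin s => x (pr (k + i)) t))) := by
    refine sum_congr rfl fun k _ => ?_
    rw [mean_prod s k x hx I]
  rw [e]
  exact h

end Pool.Agent.TH869.SQ
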