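import Pool.Agent.TH869.SQ.Mo

set_option autoImplicit false

/-!
# Square root cancellation for almost all arguments
-/

namespace Pool.Agent.TH869.SQ

open Finset Pool.Agent.TH869.EVF

/-- the indices in `[z/2, z)` congruent to `j` modulo `s` -/
def Wz (s z j : ℕ) : Finset ℕ := (Ico (z / 2) z).filter (fun k => k % s = j)

theorem card_Wz (s z j : ℕ) : (Wz s z j).card ≤ z := by
  calc (Wz s z j).card ≤ (Ico (z / 2) z).card := card_filter_le _ _
    _ = z - z / 2 := Nat.card_Ico _ _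
    _ ≤ z := Nat.sub_le _ _

theorem sum_Wz (s z : ℕ) (hs : 1 ≤ s) (g : ℕ → ℝ) :
    ∑ k ∈ Ico (z / 2) z, g k = ∑ j ∈ range s, ∑ k ∈ Wz s z j, g k := by
  unfold Wz
  exact (sum_fiberwise_of_maps_to (fun k _ => mem_range.mpr (Nat.mod_lt k hs)) g).symm

/-- the size allowed -/
noncomputable def lam (δ : ℝ) (N z : ℕ) : ℝ := (z : ℝ) ^ (1 / 2 + δ) * √(1 + Real.log N)

/-- one block -/
theorem one_block (s B D : ℕ) (δ : ℝ) (hδ : 0 < δ) :
    ∃ (Z0 : ℕ) (κ : ℝ), 1 ≤ Z0 ∧ 0 < κ ∧ κ ≤ 1 ∧ ∀ (q : ℕ → ℕ),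
      (∀ k, 0 < q k ∧ q k ≤ D * (k + 1) ^ B) →
      (∀ j k, j + s ≤ k → Nat.Coprime (q j) (q k)) → ∀ φ : ℕ → ℕ → ℝ, (∀ k, Per (φ k) (q k)) →
      (∀ k n, |φ k n| ≤ 1) → (∀ k, ∑ n ∈ range (q k), φ k n = 0) →
      ∀ N z j : ℕ, 1 ≤ N → Z0 ≤ z → (z : ℝ) ≤ (N : ℝ) ^ κ →
      (((range (N + 1)).filter (fun n => lam δ N z < |∑ k ∈ Wz s z j, φ k n|)).card : ℝ) ≤
        3 * (N : ℝ) ^ (1 - 2 * κ) := by
  set b0 : ℝ := 4 * (B + 2) with hb0
  have hB0 : (0 : ℝ) ≤ B := Nat.cast_nonneg B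
  have hb08 : 8 ≤ b0 := by rw [hb0]; linarith
  set κ : ℝ := min (1 / (2 * b0)) (min (δ / (2 * b0)) (1 / 4)) with hκ
  have hκ0 : 0 < κ := by
    rw [hκ]
    refine lt_min (by positivity) (lt_min (by positivity) (by norm_num))
  have hκ1 : κ ≤ 1 / (2 * b0) := min_le_left _ _
  have hκ2 : κ ≤ δ / (2 * b0) := (min_le_right _ _).trans (min_le_left _ _)
  have hκ3 : κ ≤ 1 / 4 := (min_le_right _ _).trans (min_le_right _ _)
  refine ⟨max D 3, κ, by omega, hκ0, by linarith, ?_⟩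
  intro q hq hcop φ hper hle hsum N z j hN hz hzN
  have hNr1 : (1 : ℝ) ≤ N := by exact_mod_cast hN
  have hN0 : (0 : ℝ) < N := by linarith
  have hz3 : 3 ≤ z := le_trans (le_max_right _ _) hz
  have hzD : D ≤ z := le_trans (le_max_left _ _) hz
  have hz3r : (3 : ℝ) ≤ z := by exact_mod_cast hz3
  have hz0 : (0 : ℝ) < z := by linarith
  set L : ℝ := Real.log N with hL
  set lz : ℝ := Real.log z with hlz
  have hL0 : 0 ≤ L := Real.log_nonneg hNr1
  have hlz1 : 1 ≤ lz := by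
    rw [hlz, Real.le_log_iff_exp_le hz0]
    have := Real.exp_one_lt_d9
    linarith
  have hlzL : 2 * b0 * lz ≤ L := by
    have h1 : lz ≤ Real.log ((N : ℝ) ^ κ) := Real.log_le_log hz0 hzN
    rw [Real.log_rpow hN0] at h1
    have h2 : κ * L ≤ 1 / (2 * b0) * L := mul_le_mul_of_nonneg_right hκ1 hL0
    have h3 : lz ≤ 1 / (2 * b0) * L := h1.trans h2
    calc 2 * b0 * lz ≤ 2 * b0 * (1 / (2 * b0) * L) := by gcongr
      _ = L := by field_simp
  set m : ℕ := ⌊L / (b0 * lz)⌋₊ with hm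
  have hm1 : (m : ℝ) ≤ L / (b0 * lz) := Nat.floor_le (by positivity)
  have hm2 : L / (2 * b0 * lz) ≤ m := by
    have h1 : L / (b0 * lz) < m + 1 := Nat.lt_floor_add_one _
    have h2 : 1 ≤ L / (2 * b0 * lz) := by rw [le_div_iff₀ (by positivity)]; linarith
    have h3 : L / (b0 * lz) = L / (2 * b0 * lz) + L / (2 * b0 * lz) := by field_simp; ring
    linarith
  have hN2 : 0 ≤ (N : ℝ) ^ (1 - 2 * κ) := Real.rpow_nonneg hN0.le _
  set b : ℝ := lam δ N z with hb
  have hzδ : 1 ≤ (z : ℝ) ^ δ := Real.one_le_rpow (by linarith) hδ.le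
  have hzh : (z : ℝ) ^ (1 / 2 + δ) = √z * (z : ℝ) ^ δ := by
    rw [Real.rpow_add hz0, ← Real.sqrt_eq_rpow]
  have hs1 : 1 ≤ √(1 + L) := Real.one_le_sqrt.mpr (by linarith)
  have hsz : 0 < √(z : ℝ) := Real.sqrt_pos.mpr hz0
  have hsz1 : 1 ≤ √(z : ℝ) := Real.one_le_sqrt.mpr (by linarith)
  have hb1 : √(z : ℝ) * √(1 + L) ≤ b := by
    rw [hb, lam, hzh]
    calc √(z : ℝ) * √(1 + L) = √z * 1 * √(1 + L) := by ring
      _ ≤ √z * (z : ℝ) ^ δ * √(1 + L) := by gcongr
  have hbpos : 0 < b := lt_of_lt_of_le (by positivity) hb1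
  have hbone : 1 ≤ b := le_trans (one_le_mul_of_one_le_of_one_le hsz1 hs1) hb1
  have hmL : (m : ℝ) ≤ L := hm1.trans (div_le_self hL0 (by nlinarith))
  by_cases hmP : m ≤ (Wz s z j).card
  · have hmem : ∀ k ∈ Wz s z j, k < z ∧ k % s = j := by
      intro k hk
      rw [Wz, mem_filter, mem_Ico] at hk
      exact ⟨hk.1.2, hk.2⟩
    have h := bad_card (Wz s z j) q φ (D * z ^ B + 1) (by
        intro k hk
        refine ⟨(hq k).1, ?_⟩
        have h1 := (hq k).2
        have h2 : (k + 1) ^ B ≤ z ^ B := Nat.pow_le_pow_left (hmem k hk).1 B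
        have h3 : D * (k + 1) ^ B ≤ D * z ^ B := Nat.mul_le_mul_left D h2
        omega) (by omega) (by
        intro i hi k hk hik
        obtain ⟨_, hi2⟩ := hmem i hi
        obtain ⟨_, hk2⟩ := hmem k hk
        have hmod : i ≡ k [MOD s] := by rw [Nat.ModEq, hi2, hk2]
        rcases lt_or_gt_of_ne hik with hlt | hlt
        · apply hcop
          obtain ⟨c, hc⟩ := (Nat.modEq_iff_dvd' hlt.le).mp hmod
          have hc0 : c ≠ 0 := by rintro rfl; omega
          have : s ≤ s * c := Nat.le_mul_of_pos_right s (Nat.pos_of_ne_zero hc0)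
          omega
        · apply Nat.Coprime.symm
          apply hcop
          obtain ⟨c, hc⟩ := (Nat.modEq_iff_dvd' hlt.le).mp hmod.symm
          have hc0 : c ≠ 0 := by rintro rfl; omega
          have : s ≤ s * c := Nat.le_mul_of_pos_right s (Nat.pos_of_ne_zero hc0)
          omega) (fun k _ => hper k) hle (fun k _ => hsum k) (N + 1) m hmP b hbpos
    refine h.trans ?_
    have hPz : ((Wz s z j).card : ℝ) ≤ z := by exact_mod_cast card_Wz s z j
    have hNpow : ∀ a : ℝ, (N : ℝ) ^ a = Real.exp (a * L) := by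
      intro a
      rw [Real.rpow_def_of_pos hN0, hL]; ring_nf
    have hzpow : ∀ a : ℝ, (z : ℝ) ^ a = Real.exp (a * lz) := by
      intro a
      rw [Real.rpow_def_of_pos hz0, hlz]; ring_nf
    -- first term
    have hX : Real.exp 1 * m * (Wz s z j).card / b ^ 2 ≤ (z : ℝ) ^ (-(2 * δ)) := by
      have hb2 : b ^ 2 = (z : ℝ) * (z : ℝ) ^ (2 * δ) * (1 + L) := by
        rw [hb, lam, hzh, mul_pow, mul_pow, Real.sq_sqrt hz0.le, Real.sq_sqrt (by linarith),
          ← Real.rpow_natCast ((z : ℝ) ^ δ) 2, ← Real.rpow_mul hz0.le]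
        congr 3
        push_cast; ring
      have hem : Real.exp 1 * m ≤ 1 + L := by
        have h1 : (m : ℝ) ≤ L / 8 := by
          refine hm1.trans ?_
          apply div_le_div_of_nonneg_left hL0 (by norm_num)
          nlinarith
        have := Real.exp_one_lt_d9
        have h0 : (0 : ℝ) ≤ m := Nat.cast_nonneg m
        nlinarith
      rw [hb2, Real.rpow_neg hz0.le, div_le_iff₀ (by positivity)]
      have hzp : 0 < (z : ℝ) ^ (2 * δ) := Real.rpow_pos_of_pos hz0 _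
      calc Real.exp 1 * m * (Wz s z j).card ≤ (1 + L) * z := by gcongr
        _ = _ := by field_simp
    have hXm : (Real.exp 1 * m * (Wz s z j).card / b ^ 2) ^ m ≤ (N : ℝ) ^ (-(2 * κ)) := by
      calc _ ≤ ((z : ℝ) ^ (-(2 * δ))) ^ m := pow_le_pow_left₀ (by positivity) hX m
        _ = Real.exp (-(2 * δ) * (lz * m)) := by
            rw [hzpow, ← Real.exp_nat_mul]; congr 1; ring
        _ ≤ Real.exp (-(2 * κ) * L) := by
            apply Real.exp_le_exp.mpr
            have h1 : L / (2 * b0) ≤ lz * m := by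
              calc L / (2 * b0) = lz * (L / (2 * b0 * lz)) := by field_simp
                _ ≤ lz * m := by gcongr
            have h2 : κ * L ≤ δ * (lz * m) := by
              calc κ * L ≤ δ / (2 * b0) * L := mul_le_mul_of_nonneg_right hκ2 hL0
                _ = δ * (L / (2 * b0)) := by ring
                _ ≤ δ * (lz * m) := mul_le_mul_of_nonneg_left h1 hδ.le
            linarith
        _ = _ := (hNpow _).symm
    -- second term
    have hY : ((Wz s z j).card : ℝ) * ((D * z ^ B + 1 : ℕ) : ℝ) / b ≤ (z : ℝ) ^ ((B : ℝ) + 2) := by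
      rw [div_le_iff₀ hbpos]
      have h1 : ((D * z ^ B + 1 : ℕ) : ℝ) ≤ (z : ℝ) ^ ((B : ℝ) + 1) * √z := by
        push_cast
        have hDz : (D : ℝ) ≤ z := by exact_mod_cast hzD
        have h2 : (z : ℝ) ^ ((B : ℝ) + 1) = z * (z : ℝ) ^ B := by
          rw [Real.rpow_add hz0, Real.rpow_one, Real.rpow_natCast]; ring
        rw [h2]
        have h3 : (1 : ℝ) ≤ (z : ℝ) ^ B := one_le_pow₀ (by linarith)
        have h4 : (4 / 3 : ℝ) ≤ √z := by
          apply Real.le_sqrt_of_sq_le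
          norm_num
          linarith
        have h5 : (D : ℝ) * (z : ℝ) ^ B ≤ z * (z : ℝ) ^ B := by gcongr
        have h6 : (1 : ℝ) ≤ z * (z : ℝ) ^ B * (1 / 3) := by nlinarith
        calc (D : ℝ) * (z : ℝ) ^ B + 1 ≤ z * (z : ℝ) ^ B * (4 / 3) := by linarith
          _ ≤ z * (z : ℝ) ^ B * √z := by gcongr
      have h7 : √(z : ℝ) ≤ b := by
        refine le_trans ?_ hb1
        exact le_mul_of_one_le_right hsz.le hs1
      calc ((Wz s z j).card : ℝ) * ((D * z ^ B + 1 : ℕ) : ℝ)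
          ≤ z * ((z : ℝ) ^ ((B : ℝ) + 1) * b) := by
            refine mul_le_mul hPz (h1.trans ?_) (by positivity) hz0.le
            exact mul_le_mul_of_nonneg_left h7 (Real.rpow_nonneg hz0.le _)
        _ = (z : ℝ) ^ ((B : ℝ) + 2) * b := by
            rw [show (B : ℝ) + 2 = 1 + ((B : ℝ) + 1) by ring, Real.rpow_add hz0 1, Real.rpow_one]
            ring
    have hYm : (((Wz s z j).card : ℝ) * ((D * z ^ B + 1 : ℕ) : ℝ) / b) ^ (2 * m) ≤
        (N : ℝ) ^ (1 - 2 * κ) := by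
      calc _ ≤ ((z : ℝ) ^ ((B : ℝ) + 2)) ^ (2 * m) := pow_le_pow_left₀ (by positivity) hY _
        _ = Real.exp (2 * ((B : ℝ) + 2) * (lz * m)) := by
            rw [hzpow, ← Real.exp_nat_mul]; congr 1; push_cast; ring
        _ ≤ Real.exp ((1 - 2 * κ) * L) := by
            apply Real.exp_le_exp.mpr
            have h1 : lz * m ≤ L / b0 := by
              calc lz * m ≤ lz * (L / (b0 * lz)) := by gcongr
                _ = L / b0 := by field_simp
            have h2 : 2 * ((B : ℝ) + 2) * (lz * m) ≤ 2 * ((B : ℝ) + 2) * (L / b0) := by gcongr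
            have h3 : 2 * ((B : ℝ) + 2) * (L / b0) = 1 / 2 * L := by
              rw [hb0]; field_simp; ring
            have h4 : 1 / 2 * L ≤ (1 - 2 * κ) * L := mul_le_mul_of_nonneg_right (by linarith) hL0
            linarith
        _ = _ := (hNpow _).symm
    have hN1 : (((N + 1 : ℕ) : ℝ)) ≤ 2 * N := by push_cast; linarith
    have hNN : (N : ℝ) * (N : ℝ) ^ (-(2 * κ)) = (N : ℝ) ^ (1 - 2 * κ) := by
      rw [← Real.rpow_one_add' hN0.le (by linarith)]
      congr 1
    calc ((N + 1 : ℕ) : ℝ) * (Real.exp 1 * m * (Wz s z j).card / b ^ 2) ^ m +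
          (((Wz s z j).card : ℝ) * ((D * z ^ B + 1 : ℕ) : ℝ) / b) ^ (2 * m)
        ≤ (2 * N) * (N : ℝ) ^ (-(2 * κ)) + (N : ℝ) ^ (1 - 2 * κ) :=
          add_le_add (mul_le_mul hN1 hXm (by positivity) (by positivity)) hYm
      _ = 3 * (N : ℝ) ^ (1 - 2 * κ) := by rw [mul_assoc, hNN]; ring
  · -- few indices: the trivial bound
    push Not at hmP
    have hempty : (range (N + 1)).filter (fun n => b < |∑ k ∈ Wz s z j, φ k n|) = ∅ := by
      rw [filter_eq_empty_iff]
      intro n _ hlt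
      have h1 : |∑ k ∈ Wz s z j, φ k n| ≤ (Wz s z j).card := by
        refine (abs_sum_le_sum_abs _ _).trans ?_
        calc ∑ k ∈ Wz s z j, |φ k n| ≤ ∑ k ∈ Wz s z j, (1 : ℝ) := sum_le_sum fun k _ => hle k n
          _ = (Wz s z j).card := by simp
      set w : ℝ := ((Wz s z j).card : ℝ) with hw
      have hw0 : 0 ≤ w := Nat.cast_nonneg _
      have hwz : w ≤ z := by rw [hw]; exact_mod_cast card_Wz s z j
      have hwm : w ≤ m := by rw [hw]; exact_mod_cast hmP.le
      have h2 : w ≤ √(z : ℝ) * √(1 + L) := by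
        rw [← Real.sqrt_mul hz0.le]
        apply Real.le_sqrt_of_sq_le
        rw [sq]
        exact mul_le_mul hwz (by linarith) hw0 hz0.le
      linarith
    rw [hempty, card_empty, Nat.cast_zero]
    positivity

end Pool.Agent.TH869.SQ
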