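import Pool.Agent.TH869.SQ.Gd

set_option autoImplicit false

/-!
# Square root cancellation for almost all arguments: all lengths
-/

namespace Pool.Agent.TH869.SQ

open Finset Pool.Agent.TH869.EVF

theorem lam_nonneg (δ : ℝ) (N z : ℕ) : 0 ≤ lam δ N z := by unfold lam; positivity

/-- adding up the blocks -/
theorem add_blocks (g : ℕ → ℝ) (δ : ℝ) (hδ : 0 ≤ δ) (N : ℕ) (c U : ℝ) (hc : 0 ≤ c)
    (h : ∀ z : ℕ, (z : ℝ) ≤ U → |∑ k ∈ Ico (z / 2) z, g k| ≤ c * lam δ N z) :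
    ∀ K : ℕ, (K : ℝ) ≤ U → |∑ k ∈ range K, g k| ≤ 4 * c * lam δ N K := by
  intro K
  induction K using Nat.strong_induction_on with
  | _ K ih =>
    intro hKU
    rcases Nat.eq_zero_or_pos K with rfl | hK
    · simp only [range_zero, sum_empty, abs_zero]
      exact mul_nonneg (by linarith) (lam_nonneg _ _ _)
    · have hlt : K / 2 < K := Nat.div_lt_self hK (by norm_num)
      have hle : ((K / 2 : ℕ) : ℝ) ≤ K := by exact_mod_cast hlt.le
      have h1 := ih (K / 2) hlt (hle.trans hKU)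
      have h2 := h K hKU
      have e : ∑ k ∈ range K, g k = ∑ k ∈ range (K / 2), g k + ∑ k ∈ Ico (K / 2) K, g k :=
        (sum_range_add_sum_Ico g hlt.le).symm
      rw [e]
      refine (abs_add_le _ _).trans ?_
      have hKr : (0 : ℝ) < K := by exact_mod_cast hK
      have h3 : lam δ N (K / 2) ≤ 3 / 4 * lam δ N K := by
        unfold lam
        have h4 : (((K / 2 : ℕ) : ℝ)) ^ (1 / 2 + δ) ≤ 3 / 4 * (K : ℝ) ^ (1 / 2 + δ) := by
          calc (((K / 2 : ℕ) : ℝ)) ^ (1 / 2 + δ) ≤ ((1 / 2 : ℝ) * K) ^ (1 / 2 + δ) := by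
                apply Real.rpow_le_rpow (by positivity) _ (by linarith)
                have : ((K / 2 : ℕ) : ℝ) ≤ (K : ℝ) / 2 := Nat.cast_div_le
                linarith
            _ = (1 / 2 : ℝ) ^ (1 / 2 + δ) * (K : ℝ) ^ (1 / 2 + δ) :=
                Real.mul_rpow (by norm_num) hKr.le
            _ ≤ 3 / 4 * (K : ℝ) ^ (1 / 2 + δ) := by
                have h5 : (1 / 2 : ℝ) ^ (1 / 2 + δ) ≤ (1 / 2 : ℝ) ^ (1 / 2 : ℝ) :=
                  Real.rpow_le_rpow_of_exponent_ge (by norm_num) (by norm_num) (by linarith)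
                have h6 : (1 / 2 : ℝ) ^ (1 / 2 : ℝ) ≤ 3 / 4 := by
                  rw [← Real.sqrt_eq_rpow]
                  rw [Real.sqrt_le_left (by norm_num)]
                  norm_num
                have h7 : 0 ≤ (K : ℝ) ^ (1 / 2 + δ) := Real.rpow_nonneg hKr.le _
                exact mul_le_mul_of_nonneg_right (h5.trans h6) h7
        calc (((K / 2 : ℕ) : ℝ)) ^ (1 / 2 + δ) * √(1 + Real.log N)
            ≤ (3 / 4 * (K : ℝ) ^ (1 / 2 + δ)) * √(1 + Real.log N) := by gcongr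
          _ = _ := by ring
      have h4 := lam_nonneg δ N K
      have h5 : 4 * c * lam δ N (K / 2) ≤ 4 * c * (3 / 4 * lam δ N K) := by gcongr
      linarith

/-- **square root cancellation for almost all arguments** -/
theorem good (s B D : ℕ) (hs : 1 ≤ s) (δ : ℝ) (hδ : 0 < δ) :
    ∃ κ C : ℝ, 0 < κ ∧ κ ≤ 1 ∧ 1 ≤ C ∧ ∀ (q : ℕ → ℕ),
      (∀ k, 0 < q k ∧ q k ≤ D * (k + 1) ^ B) →
      (∀ j k, j + s ≤ k → Nat.Coprime (q j) (q k)) → ∀ φ : ℕ → ℕ → ℝ, (∀ k, Per (φ k) (q k)) →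
      (∀ k n, |φ k n| ≤ 1) → (∀ k, ∑ n ∈ range (q k), φ k n = 0) →
      ∀ N : ℕ, 1 ≤ N → ∃ E : Finset ℕ, (E.card : ℝ) ≤ C * (N : ℝ) ^ (1 - κ) ∧
        ∀ n : ℕ, n ≤ N → n ∉ E → ∀ K : ℕ, (K : ℝ) ≤ (N : ℝ) ^ κ →
          |∑ k ∈ range K, φ k n| ≤ C * lam δ N K := by
  obtain ⟨Z0, κ, hZ0, hκ0, hκ1, H⟩ := one_block s B D δ hδ
  have hsr : (1 : ℝ) ≤ s := by exact_mod_cast hs
  have hZr : (1 : ℝ) ≤ Z0 := by exact_mod_cast hZ0
  refine ⟨κ, 4 * s * Z0, hκ0, hκ1, by nlinarith, ?_⟩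
  intro q hq hcop φ hper hle hsum N hN
  have hNr1 : (1 : ℝ) ≤ N := by exact_mod_cast hN
  have hN0 : (0 : ℝ) < N := by linarith
  set V := (Icc 1 ⌊(N : ℝ) ^ κ⌋₊).filter (fun z : ℕ => Z0 ≤ z) with hV
  set Bd : ℕ → ℕ → Finset ℕ := fun z j => (range (N + 1)).filter
    (fun n => lam δ N z < |∑ k ∈ Wz s z j, φ k n|) with hBd
  refine ⟨V.biUnion (fun z => (range s).biUnion (Bd z)), ?_, ?_⟩
  · have h1 : ∀ z ∈ V, ∀ j, ((Bd z j).card : ℝ) ≤ 3 * (N : ℝ) ^ (1 - 2 * κ) := by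
      intro z hz j
      rw [hV, mem_filter, mem_Icc] at hz
      have hzκ : (z : ℝ) ≤ (N : ℝ) ^ κ :=
        (Nat.cast_le.mpr hz.1.2).trans (Nat.floor_le (Real.rpow_nonneg hN0.le _))
      exact H q hq hcop φ hper hle hsum N z j hN hz.2 hzκ
    have h2 : ((V.biUnion (fun z => (range s).biUnion (Bd z))).card : ℝ) ≤
        ∑ z ∈ V, ∑ j ∈ range s, ((Bd z j).card : ℝ) := by
      have h3 : (V.biUnion (fun z => (range s).biUnion (Bd z))).card ≤
          ∑ z ∈ V, ∑ j ∈ range s, (Bd z j).card :=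
        card_biUnion_le.trans (sum_le_sum fun z _ => card_biUnion_le)
      exact_mod_cast h3
    have h3 : (V.card : ℝ) ≤ (N : ℝ) ^ κ := by
      have h4 : V.card ≤ ⌊(N : ℝ) ^ κ⌋₊ := by
        calc V.card ≤ (Icc 1 ⌊(N : ℝ) ^ κ⌋₊).card := card_filter_le _ _
          _ = _ := by rw [Nat.card_Icc, Nat.add_sub_cancel]
      exact (Nat.cast_le.mpr h4).trans (Nat.floor_le (Real.rpow_nonneg hN0.le _))
    have hNp : 0 ≤ (N : ℝ) ^ (1 - 2 * κ) := Real.rpow_nonneg hN0.le _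
    calc _ ≤ ∑ z ∈ V, ∑ j ∈ range s, ((Bd z j).card : ℝ) := h2
      _ ≤ ∑ z ∈ V, ∑ j ∈ range s, 3 * (N : ℝ) ^ (1 - 2 * κ) :=
          sum_le_sum fun z hz => sum_le_sum fun j _ => h1 z hz j
      _ = V.card * (s * (3 * (N : ℝ) ^ (1 - 2 * κ))) := by
          rw [sum_const, sum_const, card_range, nsmul_eq_mul, nsmul_eq_mul]
      _ ≤ (N : ℝ) ^ κ * (s * (3 * (N : ℝ) ^ (1 - 2 * κ))) := by gcongr
      _ = 3 * s * ((N : ℝ) ^ κ * (N : ℝ) ^ (1 - 2 * κ)) := by ring
      _ = 3 * s * (N : ℝ) ^ (1 - κ) := by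
          rw [← Real.rpow_add hN0]
          congr 2
          ring
      _ ≤ 4 * s * Z0 * (N : ℝ) ^ (1 - κ) := by
          have := Real.rpow_nonneg hN0.le (1 - κ)
          have h5 : 3 * (s : ℝ) ≤ 4 * s * Z0 := by nlinarith
          gcongr
  · intro n hn hnE K hK
    have key : ∀ z : ℕ, (z : ℝ) ≤ (N : ℝ) ^ κ →
        |∑ k ∈ Ico (z / 2) z, φ k n| ≤ (s * Z0) * lam δ N z := by
      intro z hz
      have hlam := lam_nonneg δ N z
      by_cases hzZ : Z0 ≤ z
      · have hzV : z ∈ V := by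
          rw [hV, mem_filter, mem_Icc]
          exact ⟨⟨by omega, Nat.le_floor hz⟩, hzZ⟩
        rw [sum_Wz s z hs]
        refine (abs_sum_le_sum_abs _ _).trans ?_
        calc ∑ j ∈ range s, |∑ k ∈ Wz s z j, φ k n| ≤ ∑ j ∈ range s, lam δ N z := by
              refine sum_le_sum fun j hj => ?_
              by_contra hlt
              push Not at hlt
              apply hnE
              rw [mem_biUnion]
              refine ⟨z, hzV, ?_⟩
              rw [mem_biUnion]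
              refine ⟨j, hj, ?_⟩
              rw [hBd, mem_filter, mem_range]
              exact ⟨by omega, hlt⟩
          _ = s * lam δ N z := by rw [sum_const, card_range, nsmul_eq_mul]
          _ ≤ (s * Z0) * lam δ N z := by
              have : (s : ℝ) ≤ s * Z0 := by nlinarith
              gcongr
      · push Not at hzZ
        rcases Nat.eq_zero_or_pos z with rfl | hz0
        · simp only [Nat.zero_div, Ico_self, sum_empty, abs_zero]
          positivity
        · have hz1 : (1 : ℝ) ≤ z := by exact_mod_cast hz0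
          have hl1 : 1 ≤ lam δ N z := by
            unfold lam
            have h1 : 1 ≤ (z : ℝ) ^ (1 / 2 + δ) := Real.one_le_rpow hz1 (by linarith)
            have h2 : 1 ≤ √(1 + Real.log N) :=
              Real.one_le_sqrt.mpr (by have := Real.log_nonneg hNr1; linarith)
            exact one_le_mul_of_one_le_of_one_le h1 h2
          have h1 : |∑ k ∈ Ico (z / 2) z, φ k n| ≤ z := by
            refine (abs_sum_le_sum_abs _ _).trans ?_
            calc ∑ k ∈ Ico (z / 2) z, |φ k n| ≤ ∑ k ∈ Ico (z / 2) z, (1 : ℝ) :=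
                  sum_le_sum fun k _ => hle k n
              _ = ((z - z / 2 : ℕ) : ℝ) := by simp
              _ ≤ z := by exact_mod_cast Nat.sub_le _ _
          have h2 : (z : ℝ) ≤ Z0 := by exact_mod_cast hzZ.le
          have h3 : (Z0 : ℝ) ≤ s * Z0 := by nlinarith
          calc |∑ k ∈ Ico (z / 2) z, φ k n| ≤ (s * Z0) * 1 := by linarith
            _ ≤ _ := by gcongr
    have h := add_blocks (fun k => φ k n) δ hδ.le N (s * Z0) ((N : ℝ) ^ κ) (by positivity) key K hK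
    calc _ ≤ 4 * ((s : ℝ) * Z0) * lam δ N K := h
      _ = _ := by ring

end Pool.Agent.TH869.SQ
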