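import Pool.Agent.TH869.EVF.Block

set_option autoImplicit false

/-!
# Even moments of sums of functions with coprime periods
-/

namespace Pool.Agent.TH869.SQ

open Finset Pool.Agent.TH869.EVF

theorem sum_prod_per {ι : Type*} [DecidableEq ι] (q : ι → ℕ) (F : ι → ℕ → ℝ) (I : Finset ι)
    (hq : ∀ i ∈ I, 0 < q i) (hcop : ∀ i ∈ I, ∀ j ∈ I, i ≠ j → Nat.Coprime (q i) (q j))
    (hper : ∀ i ∈ I, Per (F i) (q i)) :
    Per (fun n => ∏ i ∈ I, F i n) (∏ i ∈ I, q i) ∧
      ∑ n ∈ range (∏ i ∈ I, q i), ∏ i ∈ I, F i n = ∏ i ∈ I, ∑ n ∈ range (q i), F i n := by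
  induction I using Finset.induction_on with
  | empty =>
    refine ⟨fun n => by simp, by simp⟩
  | insert a I ha ih =>
    obtain ⟨h1, h2⟩ := ih (fun i hi => hq i (mem_insert_of_mem hi))
      (fun i hi j hj => hcop i (mem_insert_of_mem hi) j (mem_insert_of_mem hj))
      (fun i hi => hper i (mem_insert_of_mem hi))
    have ha' := mem_insert_self a I
    have hc : Nat.Coprime (q a) (∏ i ∈ I, q i) := by
      apply Nat.Coprime.prod_right
      intro i hi
      exact hcop a ha' i (mem_insert_of_mem hi) (fun h => ha (h ▸ hi))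
    have hpos : 0 < ∏ i ∈ I, q i := prod_pos fun i hi => hq i (mem_insert_of_mem hi)
    have e : ∀ n, ∏ i ∈ insert a I, F i n = F a n * ∏ i ∈ I, F i n := fun n => prod_insert ha
    rw [prod_insert ha, prod_insert ha]
    refine ⟨?_, ?_⟩
    · have h3 := ((hper a ha').of_dvd (dvd_mul_right (q a) (∏ i ∈ I, q i))).mul
        (h1.of_dvd (dvd_mul_left (∏ i ∈ I, q i) (q a)))
      intro n
      simp only [e]
      exact h3 n
    · simp only [e]
      rw [sum_mul_per (hq a ha') hpos hc (hper a ha') h1, h2]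

open Classical in
/-- the tuples in which every value is repeated -/
noncomputable def TT {ι : Type*} (P : Finset ι) (m : ℕ) : Finset (Fin (2 * m) → ι) :=
  (Fintype.piFinset (fun _ : Fin (2 * m) => P)).filter (fun t => ∀ j, ∃ j', j' ≠ j ∧ t j' = t j)

theorem mem_TT {ι : Type*} {P : Finset ι} {m : ℕ} {t : Fin (2 * m) → ι} :
    t ∈ TT P m ↔ t ∈ Fintype.piFinset (fun _ : Fin (2 * m) => P) ∧
      ∀ j, ∃ j', j' ≠ j ∧ t j' = t j := by
  unfold TT
  exact @Finset.mem_filter _ _ (_) _ _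

theorem count_pairs {ι : Type*} (P : Finset ι) (m : ℕ) (hm : m ≤ P.card) :
    ((TT P m).card : ℝ) ≤ (Real.exp 1 * m * P.card) ^ m := by
  classical
  have hsub : TT P m ⊆
      (powersetCard m P).biUnion (fun J => Fintype.piFinset (fun _ : Fin (2 * m) => J)) := by
    intro t ht
    rw [mem_TT, Fintype.mem_piFinset] at ht
    obtain ⟨h1, h2⟩ := ht
    have himg : univ.image t ⊆ P := by
      intro i hi
      rw [mem_image] at hi
      obtain ⟨j, _, rfl⟩ := hi
      exact h1 j
    have hfib : ∀ i ∈ univ.image t, 2 ≤ (univ.filter (fun j => t j = i)).card := by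
      intro i hi
      rw [mem_image] at hi
      obtain ⟨j, _, rfl⟩ := hi
      obtain ⟨j', hj', hj''⟩ := h2 j
      have h5 : ({j', j} : Finset (Fin (2 * m))) ⊆ univ.filter (fun k => t k = t j) := by
        intro k hk
        rw [mem_insert, mem_singleton] at hk
        rw [mem_filter]
        rcases hk with rfl | rfl
        · exact ⟨mem_univ _, hj''⟩
        · exact ⟨mem_univ _, rfl⟩
      have h6 := card_le_card h5
      rwa [card_pair hj'] at h6
    have hcard : (univ.image t).card ≤ m := by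
      have h3 : (univ : Finset (Fin (2 * m))).card =
          ∑ i ∈ univ.image t, (univ.filter (fun j => t j = i)).card :=
        card_eq_sum_card_fiberwise (fun x hx => mem_coe.mpr (mem_image_of_mem t (mem_univ x)))
      have h4 : ∑ i ∈ univ.image t, 2 ≤ ∑ i ∈ univ.image t, (univ.filter (fun j => t j = i)).card :=
        sum_le_sum hfib
      rw [← h3, card_univ, Fintype.card_fin, sum_const, smul_eq_mul] at h4
      omega
    obtain ⟨J, hJ1, hJ2, hJ3⟩ := exists_subsuperset_card_eq himg hcard hm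
    rw [mem_biUnion]
    refine ⟨J, mem_powersetCard.mpr ⟨hJ2, hJ3⟩, ?_⟩
    rw [Fintype.mem_piFinset]
    intro j
    exact hJ1 (mem_image_of_mem t (mem_univ j))
  have h1 : (((powersetCard m P).biUnion
      (fun J => Fintype.piFinset (fun _ : Fin (2 * m) => J))).card : ℝ) ≤
      (P.card.choose m : ℝ) * (m : ℝ) ^ (2 * m) := by
    have h2 : ((powersetCard m P).biUnion
        (fun J => Fintype.piFinset (fun _ : Fin (2 * m) => J))).card ≤
        ∑ J ∈ powersetCard m P, m ^ (2 * m) := by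
      refine card_biUnion_le.trans (sum_le_sum fun J hJ => ?_)
      rw [Fintype.card_piFinset]
      simp only [prod_const, card_univ, Fintype.card_fin]
      rw [(mem_powersetCard.mp hJ).2]
    rw [sum_const, smul_eq_mul, card_powersetCard] at h2
    exact_mod_cast h2
  refine (Nat.cast_le.mpr (card_le_card hsub)).trans (h1.trans ?_)
  have h3 : (P.card.choose m : ℝ) ≤ (P.card : ℝ) ^ m / (m.factorial : ℝ) :=
    Nat.choose_le_pow_div m P.card
  have h4 : (m : ℝ) ^ m / (m.factorial : ℝ) ≤ Real.exp m :=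
    Real.pow_div_factorial_le_exp (m : ℝ) (Nat.cast_nonneg m) m
  have h5 : Real.exp m = Real.exp 1 ^ m := by
    rw [← Real.exp_nat_mul, mul_one]
  calc (P.card.choose m : ℝ) * (m : ℝ) ^ (2 * m)
      ≤ (P.card : ℝ) ^ m / (m.factorial : ℝ) * (m : ℝ) ^ (2 * m) := by gcongr
    _ = (P.card : ℝ) ^ m * (m : ℝ) ^ m * ((m : ℝ) ^ m / (m.factorial : ℝ)) := by
        rw [two_mul, pow_add]; ring
    _ ≤ (P.card : ℝ) ^ m * (m : ℝ) ^ m * Real.exp 1 ^ m := by rw [← h5]; gcongr
    _ = _ := by rw [mul_pow, mul_pow]; ring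

/-- **even moments** -/
theorem moment {ι : Type*} [DecidableEq ι] (P : Finset ι) (q : ι → ℕ) (φ : ι → ℕ → ℝ) (Y : ℕ)
    (hq : ∀ i ∈ P, 0 < q i ∧ q i ≤ Y) (hY : 1 ≤ Y)
    (hcop : ∀ i ∈ P, ∀ j ∈ P, i ≠ j → Nat.Coprime (q i) (q j))
    (hper : ∀ i ∈ P, Per (φ i) (q i)) (hle : ∀ i n, |φ i n| ≤ 1)
    (hsum : ∀ i ∈ P, ∑ n ∈ range (q i), φ i n = 0) (N m : ℕ) (hm : m ≤ P.card) :
    ∑ n ∈ range N, (∑ i ∈ P, φ i n) ^ (2 * m) ≤
      N * (Real.exp 1 * m * P.card) ^ m + ((P.card : ℝ) * Y) ^ (2 * m) := by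
  classical
  set T := Fintype.piFinset (fun _ : Fin (2 * m) => P) with hT
  set T2 := TT P m with hT2
  have hexp : ∀ n, (∑ i ∈ P, φ i n) ^ (2 * m) = ∑ t ∈ T, ∏ j, φ (t j) n := by
    intro n
    have h1 := (prod_univ_sum (fun _ : Fin (2 * m) => P) (fun _ i => φ i n)).symm
    rw [prod_const, card_univ, Fintype.card_fin] at h1
    exact h1.symm
  have hYr : (1 : ℝ) ≤ Y := by exact_mod_cast hY
  have hprod1 : ∀ (t : Fin (2 * m) → ι) n, |∏ j, φ (t j) n| ≤ 1 := by
    intro t n
    rw [abs_prod]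
    exact prod_le_one (fun _ _ => abs_nonneg _) fun j _ => hle _ _
  have hterm : ∀ t ∈ T, |∑ n ∈ range N, ∏ j, φ (t j) n| ≤
      (if t ∈ T2 then (N : ℝ) else 0) + (Y : ℝ) ^ (2 * m) := by
    intro t ht
    by_cases hc : t ∈ T2
    · rw [if_pos hc]
      have h1 : |∑ n ∈ range N, ∏ j, φ (t j) n| ≤ N := by
        refine (abs_sum_le_sum_abs _ _).trans ?_
        calc ∑ n ∈ range N, |∏ j, φ (t j) n| ≤ ∑ n ∈ range N, (1 : ℝ) :=
              sum_le_sum fun n _ => hprod1 t n
          _ = N := by simp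
      have : (0 : ℝ) ≤ (Y : ℝ) ^ (2 * m) := by positivity
      linarith
    · rw [if_neg hc, zero_add]
      have ht' := ht
      rw [hT, Fintype.mem_piFinset] at ht'
      have hc' : ∃ j0, ∀ j', j' ≠ j0 → t j' ≠ t j0 := by
        by_contra h
        push Not at h
        exact hc (mem_TT.mpr ⟨ht, h⟩)
      obtain ⟨j0, hj0⟩ := hc'
      set i0 := t j0 with hi0def
      have hi0 : i0 ∈ univ.image t := mem_image_of_mem t (mem_univ j0)
      set I := univ.image t with hI
      have himg : ∀ i ∈ I, i ∈ P := by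
        intro i hi
        rw [hI, mem_image] at hi
        obtain ⟨j, _, rfl⟩ := hi
        exact ht' j
      set F : ι → ℕ → ℝ := fun i n => φ i n ^ (univ.filter (fun j => t j = i)).card with hF
      have he : ∀ n, ∏ j, φ (t j) n = ∏ i ∈ I, F i n := by
        intro n
        rw [hF, hI]
        exact prod_comp (fun i => φ i n) t
      have hFper : ∀ i ∈ I, Per (F i) (q i) := by
        intro i hi n
        rw [hF]
        simp only
        rw [hper i (himg i hi) n]
      obtain ⟨g1, g2⟩ := sum_prod_per q F I (fun i hi => (hq i (himg i hi)).1)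
        (fun i hi j hj => hcop i (himg i hi) j (himg j hj)) hFper
      have hc1 : (univ.filter (fun j => t j = i0)).card = 1 := by
        rw [card_eq_one]
        refine ⟨j0, ?_⟩
        ext j
        rw [mem_filter, mem_singleton]
        constructor
        · intro h
          by_contra hne
          exact hj0 j hne h.2
        · rintro rfl
          exact ⟨mem_univ _, rfl⟩
      have hz : ∏ i ∈ I, ∑ n ∈ range (q i), F i n = 0 := by
        apply prod_eq_zero hi0
        rw [hF]
        simp only [hc1, pow_one]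
        exact hsum i0 (himg i0 hi0)
      have hMpos : 0 < ∏ i ∈ I, q i := prod_pos fun i hi => (hq i (himg i hi)).1
      have h3 := sum_range_per hMpos g1 (fun n => by rw [← he n]; exact hprod1 t n) N
      rw [g2, hz, abs_zero, zero_div, mul_zero, zero_add] at h3
      have h4 : ((∏ i ∈ I, q i : ℕ) : ℝ) ≤ (Y : ℝ) ^ (2 * m) := by
        have h5 : ∏ i ∈ I, q i ≤ Y ^ I.card :=
          prod_le_pow_card _ _ _ fun i hi => (hq i (himg i hi)).2
        have h6 : I.card ≤ 2 * m := by
          have := card_image_le (s := (univ : Finset (Fin (2 * m)))) (f := t)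
          rwa [card_univ, Fintype.card_fin] at this
        have h7 : Y ^ I.card ≤ Y ^ (2 * m) := Nat.pow_le_pow_right hY h6
        exact_mod_cast h5.trans h7
      simp only [he]
      exact h3.trans h4
  have hTc : (T.card : ℝ) = (P.card : ℝ) ^ (2 * m) := by
    rw [hT, Fintype.card_piFinset]
    simp
  calc ∑ n ∈ range N, (∑ i ∈ P, φ i n) ^ (2 * m)
      = ∑ t ∈ T, ∑ n ∈ range N, ∏ j, φ (t j) n := by
        rw [sum_comm]
        exact sum_congr rfl fun n _ => hexp n
    _ ≤ ∑ t ∈ T, |∑ n ∈ range N, ∏ j, φ (t j) n| := sum_le_sum fun t _ => le_abs_self _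
    _ ≤ ∑ t ∈ T, ((if t ∈ T2 then (N : ℝ) else 0) + (Y : ℝ) ^ (2 * m)) := sum_le_sum hterm
    _ = T2.card * N + T.card * (Y : ℝ) ^ (2 * m) := by
        rw [sum_add_distrib, sum_const, nsmul_eq_mul, ← sum_filter]
        have : T.filter (fun t => t ∈ T2) = T2 := by
          ext t
          rw [mem_filter]
          constructor
          · exact fun h => h.2
          · intro h
            refine ⟨?_, h⟩
            rw [hT2, mem_TT] at h
            exact h.1
        rw [this, sum_const, nsmul_eq_mul]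
    _ ≤ (Real.exp 1 * m * P.card) ^ m * N + (P.card : ℝ) ^ (2 * m) * (Y : ℝ) ^ (2 * m) := by
        rw [hTc]
        have := count_pairs P m hm
        gcongr
    _ = _ := by rw [mul_pow (P.card : ℝ) (Y : ℝ)]; ring

/-- few arguments have a large sum -/
theorem bad_card {ι : Type*} [DecidableEq ι] (P : Finset ι) (q : ι → ℕ) (φ : ι → ℕ → ℝ) (Y : ℕ)
    (hq : ∀ i ∈ P, 0 < q i ∧ q i ≤ Y) (hY : 1 ≤ Y)
    (hcop : ∀ i ∈ P, ∀ j ∈ P, i ≠ j → Nat.Coprime (q i) (q j))
    (hper : ∀ i ∈ P, Per (φ i) (q i)) (hle : ∀ i n, |φ i n| ≤ 1)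
    (hsum : ∀ i ∈ P, ∑ n ∈ range (q i), φ i n = 0) (N m : ℕ) (hm : m ≤ P.card)
    (b : ℝ) (hb : 0 < b) :
    (((range N).filter (fun n => b < |∑ i ∈ P, φ i n|)).card : ℝ) ≤
      N * (Real.exp 1 * m * P.card / b ^ 2) ^ m + ((P.card : ℝ) * Y / b) ^ (2 * m) := by
  have h := moment P q φ Y hq hY hcop hper hle hsum N m hm
  set Bd := (range N).filter (fun n => b < |∑ i ∈ P, φ i n|) with hBd
  have h1 : (Bd.card : ℝ) * b ^ (2 * m) ≤ ∑ n ∈ range N, (∑ i ∈ P, φ i n) ^ (2 * m) := by
    calc (Bd.card : ℝ) * b ^ (2 * m) = ∑ n ∈ Bd, b ^ (2 * m) := by rw [sum_const, nsmul_eq_mul]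
      _ ≤ ∑ n ∈ Bd, (∑ i ∈ P, φ i n) ^ (2 * m) := by
          refine sum_le_sum fun n hn => ?_
          rw [hBd, mem_filter] at hn
          rw [← (even_two_mul m).pow_abs (∑ i ∈ P, φ i n)]
          exact pow_le_pow_left₀ hb.le hn.2.le _
      _ ≤ _ := sum_le_sum_of_subset_of_nonneg (filter_subset _ _) fun n _ _ =>
          (even_two_mul m).pow_nonneg _
  have hb2 : 0 < b ^ (2 * m) := by positivity
  rw [← mul_le_mul_iff_of_pos_right hb2]
  refine (h1.trans h).trans (le_of_eq ?_)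
  rw [add_mul, div_pow, div_pow]
  have e : (b ^ 2) ^ m = b ^ (2 * m) := (pow_mul b 2 m).symm
  rw [e]
  field_simp

end Pool.Agent.TH869.SQ
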